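import Pool.Agent.TH931.LP.Stm

/-!
# Kernels of products and sums (LP931-K1, K2; helper158)
-/

set_option autoImplicit false

open MeasureTheory Set
open scoped ENNReal Matrix

noncomputable section

namespace Pool.Agent.TH158.LP931

open Pool.Agent.TH931.LP

/-! ### blocks -/

section blocks
variable {n m : ℕ}

@[simp] lemma p1_append (x : Fin n → ℝ) (y : Fin m → ℝ) : p1 (Fin.append x y) = x := by
  funext i; simp [p1]

@[simp] lemma p2_append (x : Fin n → ℝ) (y : Fin m → ℝ) : p2 (Fin.append x y) = y := by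
  funext i; simp [p2]

lemma append_p (x : Fin (n + m) → ℝ) : Fin.append (p1 x) (p2 x) = x := by
  funext i
  refine Fin.addCases (fun j => ?_) (fun j => ?_) i <;> simp [p1, p2]

lemma p1_smul (t : ℝ) (x : Fin (n + m) → ℝ) : p1 (t • x) = t • p1 x := by
  funext i; simp [p1]

lemma p2_smul (t : ℝ) (x : Fin (n + m) → ℝ) : p2 (t • x) = t • p2 x := by
  funext i; simp [p2]

lemma measurable_p1 : Measurable (p1 : (Fin (n + m) → ℝ) → Fin n → ℝ) :=
  measurable_pi_lambda _ fun _ => measurable_pi_apply _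

lemma measurable_p2 : Measurable (p2 : (Fin (n + m) → ℝ) → Fin m → ℝ) :=
  measurable_pi_lambda _ fun _ => measurable_pi_apply _

lemma append_dot (x x' : Fin n → ℝ) (y y' : Fin m → ℝ) :
    Fin.append x y ⬝ᵥ Fin.append x' y' = x ⬝ᵥ x' + y ⬝ᵥ y' := by
  simp [dotProduct, Fin.sum_univ_add]

lemma append_add (x x' : Fin n → ℝ) (y y' : Fin m → ℝ) :
    Fin.append x y + Fin.append x' y' = Fin.append (x + x') (y + y') := by
  funext i
  refine Fin.addCases (fun j => ?_) (fun j => ?_) i <;> simp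

lemma smul_append (t : ℝ) (x : Fin n → ℝ) (y : Fin m → ℝ) :
    t • Fin.append x y = Fin.append (t • x) (t • y) := by
  funext i
  refine Fin.addCases (fun j => ?_) (fun j => ?_) i <;> simp

lemma append_sum {ι : Type*} (s : Finset ι) (f : ι → Fin n → ℝ) (g : ι → Fin m → ℝ) :
    ∑ i ∈ s, Fin.append (f i) (g i) = Fin.append (∑ i ∈ s, f i) (∑ i ∈ s, g i) := by
  funext i
  refine Fin.addCases (fun j => ?_) (fun j => ?_) i <;> simp [Finset.sum_apply]

end blocks

/-! ### gauges -/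

/-- gauges -/
structure Gau {n : ℕ} (h : (Fin n → ℝ) → ℝ) : Prop where
  npos : 0 < n
  meas : Measurable h
  nonneg : ∀ y, 0 ≤ h y
  smul : ∀ t : ℝ, 0 < t → ∀ y, h (t • y) = t * h y
  pos : ∀ y, y ≠ 0 → 0 < h y
  fin : volume {y | h y ≤ 1} ≠ ∞

lemma Gau.zero {n : ℕ} {h : (Fin n → ℝ) → ℝ} (g : Gau h) : h 0 = 0 := by
  have := g.smul 2 two_pos 0
  rw [smul_zero] at this
  linarith

lemma Gau.eq_zero {n : ℕ} {h : (Fin n → ℝ) → ℝ} (g : Gau h) {y : Fin n → ℝ} (hy : h y ≤ 0) :
    y = 0 := by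
  by_contra hne
  exact absurd (g.pos y hne) (not_lt.2 hy)

section frames
variable {n m : ℕ} {U V U' V' : Type}

lemma measurable_dot (u : Fin n → ℝ) : Measurable fun x : Fin n → ℝ => u ⬝ᵥ x := by
  unfold dotProduct
  exact Finset.measurable_sum _ fun i _ => (measurable_pi_apply i).const_mul _

lemma meas_N [Fintype U] {F : Fr n U V} (H : Half F) : Measurable F.N := by
  classical
  have : F.N = fun x => ∑ a, ({x | F.ft x = a}.indicator (fun x => F.u a ⬝ᵥ x)) x := by
    funext x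
    rw [Finset.sum_eq_single (F.ft x)]
    · simp [H.eq]
    · intro a _ ha
      rw [indicator_of_notMem]
      exact fun h => ha h.symm
    · intro h; exact absurd (Finset.mem_univ _) h
  rw [this]
  exact Finset.measurable_sum _ fun a _ => (measurable_dot _).indicator (H.meas a)

lemma smul_N {F : Fr n U V} (H : Half F) (t : ℝ) (ht : 0 < t) (x : Fin n → ℝ) :
    F.N (t • x) = t * F.N x := by
  rw [← H.eq, H.smul t ht, ← H.eq x, dotProduct_smul, smul_eq_mul]

lemma N_zero {F : Fr n U V} (H : Half F) : F.N 0 = 0 := by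
  rw [← H.eq]; simp

lemma N_nonneg {F : Fr n U V} (H : Half F) (x : Fin n → ℝ) : 0 ≤ F.N x := by
  by_cases h : x = 0
  · rw [h, N_zero H]
  · exact (H.pos x h).le

lemma vol_ne {F : Fr n U V} (g : Good F) :
    volume F.body ≠ ∞ ∧ volume F.pol ≠ ∞ ∧ volume F.body ≠ 0 ∧ volume F.pol ≠ 0 := by
  have h := g.vol
  have hne : volume.real F.body * volume.real F.pol ≠ 0 := by
    rw [h]; positivity
  have h1 := left_ne_zero_of_mul hne
  have h2 := right_ne_zero_of_mul hne
  refine ⟨?_, ?_, ?_, ?_⟩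
  · intro h; apply h1; simp [Measure.real, h]
  · intro h; apply h2; simp [Measure.real, h]
  · intro h; apply h1; simp [Measure.real, h]
  · intro h; apply h2; simp [Measure.real, h]

lemma gdual {F : Fr n U V} (g : Good F) : Good F.dual where
  n_pos := g.n_pos
  half := g.dhalf
  dhalf := g.half
  le_one := fun b a => by
    have := g.le_one a b
    rw [dotProduct_comm] at this
    exact this
  vol := by
    have := g.vol
    rw [mul_comm] at this
    exact this

lemma gauN [Fintype U] {F : Fr n U V} (g : Good F) : Gau F.N where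
  npos := g.n_pos
  meas := meas_N g.half
  nonneg := N_nonneg g.half
  smul := smul_N g.half
  pos := g.half.pos
  fin := (vol_ne g).1

lemma gauh [Fintype V] {F : Fr n U V} (g : Good F) : Gau F.h := gauN (gdual g)

end frames

/-! ### integrals -/

lemma lint_pow (k : ℕ) (s : ℝ) :
    ∫⁻ r in Ioc (0 : ℝ) s, ENNReal.ofReal (((k : ℝ) + 1) * r ^ k) =
      ENNReal.ofReal ((max s 0) ^ (k + 1)) := by
  rcases le_total s 0 with hs | hs
  · rw [Ioc_eq_empty (not_lt.2 hs), max_eq_right hs]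
    simp
  · rw [max_eq_left hs]
    have hint : IntegrableOn (fun r : ℝ => ((k : ℝ) + 1) * r ^ k) (Ioc 0 s) := by
      apply IntegrableOn.mono_set _ Ioc_subset_Icc_self
      exact (by fun_prop : Continuous fun r : ℝ => ((k : ℝ) + 1) * r ^ k).continuousOn.integrableOn_Icc
    rw [← ofReal_integral_eq_lintegral_ofReal hint]
    · congr 1
      rw [← intervalIntegral.integral_of_le hs, intervalIntegral.integral_const_mul, integral_pow]
      have : (k : ℝ) + 1 ≠ 0 := by positivity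
      simp
      field_simp
    · filter_upwards [ae_restrict_mem measurableSet_Ioc] with r hr
      have := hr.1
      positivity

lemma lint_smul {m : ℕ} (X : ℝ) (hX : 0 < X) (f : (Fin m → ℝ) → ℝ≥0∞) (hf : Measurable f) :
    ∫⁻ y, f (X⁻¹ • y) = ENNReal.ofReal (X ^ m) * ∫⁻ y, f y := by
  have hX' : X⁻¹ ≠ 0 := inv_ne_zero hX.ne'
  have h := Measure.map_addHaar_smul (volume : Measure (Fin m → ℝ)) hX'
  rw [← lintegral_map hf (measurable_const_smul _), h, lintegral_smul_measure, smul_eq_mul]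
  congr 2
  rw [Module.finrank_fin_fun, inv_pow, inv_inv, abs_of_pos (by positivity)]

section laws
variable {n m : ℕ} {h : (Fin n → ℝ) → ℝ} {k : (Fin m → ℝ) → ℝ}

/-- the radial formula for functions which are homogeneous of degree one -/
lemma rad1 (hr : S_rad) (hg : Gau h) (f : (Fin n → ℝ) → ℝ≥0∞) (hf : Measurable f)
    (hf1 : ∀ t : ℝ, 0 < t → ∀ y, f (t • y) = ENNReal.ofReal t * f y) (hf0 : f 0 = 0)
    (Φ : ℝ → ℝ≥0∞) (hΦ : Measurable Φ) :
    ∫⁻ y, Φ (h y) * f y =
      (∫⁻ r in Ioi (0 : ℝ), ENNReal.ofReal (((n : ℝ) + 1) * r ^ n) * Φ r) *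
        ∫⁻ y in {y | h y ≤ 1}, f y := by
  obtain ⟨q, hq⟩ : ∃ q : (Fin n → ℝ) → ℝ≥0∞, q = fun y => f y / ENNReal.ofReal (h y) := ⟨_, rfl⟩
  have hqm : Measurable q := by
    rw [hq]; exact hf.div (ENNReal.measurable_ofReal.comp hg.meas)
  have hq0 : ∀ t : ℝ, 0 < t → ∀ y, q (t • y) = q y := by
    intro t ht y
    rw [hq]
    simp only
    rw [hf1 t ht y, hg.smul t ht y, ENNReal.ofReal_mul ht.le]
    exact ENNReal.mul_div_mul_left _ _ (by simpa using ht) ENNReal.ofReal_ne_top
  have key : ∀ Ψ : ℝ → ℝ≥0∞, Measurable Ψ → ∫⁻ y, Ψ (h y) * f y =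
      ENNReal.ofReal ((n : ℝ) / (n + 1)) *
        (∫⁻ r in Ioi (0 : ℝ), ENNReal.ofReal (((n : ℝ) + 1) * r ^ n) * Ψ r) *
        ∫⁻ y in {y | h y ≤ 1}, q y := by
    intro Ψ hΨ
    have e1 : ∫⁻ y, Ψ (h y) * f y = ∫⁻ y, (fun r => Ψ r * ENNReal.ofReal r) (h y) * q y := by
      apply lintegral_congr
      intro y
      by_cases hy : y = 0
      · subst hy
        rw [hq]
        simp [hf0]
      · have hp := hg.pos y hy
        rw [hq]
        simp only
        rw [mul_assoc, ENNReal.mul_div_cancel (by simpa using hp) ENNReal.ofReal_ne_top]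
    rw [e1, hr n h hg.npos hg.meas hg.nonneg hg.smul hg.fin q hqm hq0
      (fun r => Ψ r * ENNReal.ofReal r) (hΨ.mul ENNReal.measurable_ofReal)]
    congr 1
    rw [← lintegral_const_mul _ (by fun_prop)]
    apply setLIntegral_congr_fun measurableSet_Ioi
    intro r hr0
    have hr0' : (0 : ℝ) < r := hr0
    simp only
    rw [mul_comm (Ψ r), ← mul_assoc, ← mul_assoc, ← ENNReal.ofReal_mul (by positivity),
      ← ENNReal.ofReal_mul (by positivity)]
    congr 2
    obtain ⟨j, rfl⟩ : ∃ j, n = j + 1 := ⟨n - 1, by have := hg.npos; omega⟩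
    have : ((j + 1 : ℕ) : ℝ) + 1 ≠ 0 := by positivity
    simp only [Nat.add_sub_cancel]
    field_simp
    ring
  have h1 : ∫⁻ y in {y | h y ≤ 1}, f y = ENNReal.ofReal ((n : ℝ) / (n + 1)) *
      ∫⁻ y in {y | h y ≤ 1}, q y := by
    have hm : MeasurableSet {y | h y ≤ 1} := measurableSet_le hg.meas measurable_const
    have := key ((Iic (1 : ℝ)).indicator 1) (measurable_one.indicator measurableSet_Iic)
    have e2 : ∫⁻ y, ((Iic (1 : ℝ)).indicator (1 : ℝ → ℝ≥0∞)) (h y) * f y =
        ∫⁻ y in {y | h y ≤ 1}, f y := by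
      rw [← lintegral_indicator hm]
      apply lintegral_congr
      intro y
      by_cases hy : h y ≤ 1
      · rw [indicator_of_mem (show h y ∈ Iic (1 : ℝ) from hy),
          indicator_of_mem (show y ∈ {y | h y ≤ 1} from hy)]
        simp
      · rw [indicator_of_notMem (show h y ∉ Iic (1 : ℝ) from hy),
          indicator_of_notMem (show y ∉ {y | h y ≤ 1} from hy)]
        simp
    rw [← e2, this]
    congr 1
    have e3 : ∫⁻ r in Ioi (0 : ℝ), ENNReal.ofReal (((n : ℝ) + 1) * r ^ n) *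
        ((Iic (1 : ℝ)).indicator (1 : ℝ → ℝ≥0∞)) r = 1 := by
      have e4 : ∀ r : ℝ, ENNReal.ofReal (((n : ℝ) + 1) * r ^ n) *
          ((Iic (1 : ℝ)).indicator (1 : ℝ → ℝ≥0∞)) r =
          (Iic (1 : ℝ)).indicator (fun r => ENNReal.ofReal (((n : ℝ) + 1) * r ^ n)) r := by
        intro r
        by_cases hr1 : r ∈ Iic (1 : ℝ)
        · simp [hr1]
        · rw [indicator_of_notMem hr1, indicator_of_notMem hr1, mul_zero]
      simp_rw [e4]
      rw [lintegral_indicator measurableSet_Iic, Measure.restrict_restrict measurableSet_Iic,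
        Iic_inter_Ioi, lint_pow]
      simp
    rw [e3, mul_one]
  rw [key Φ hΦ, h1]
  ring

/-- the radial formula for functions which are homogeneous of degree zero -/
lemma rad0 (hr : S_rad) (hg : Gau h) (f : (Fin n → ℝ) → ℝ≥0∞) (hf : Measurable f)
    (hf1 : ∀ t : ℝ, 0 < t → ∀ y, f (t • y) = f y)
    (Φ : ℝ → ℝ≥0∞) (hΦ : Measurable Φ) :
    ∫⁻ y, Φ (h y) * f y =
      (∫⁻ r in Ioi (0 : ℝ), ENNReal.ofReal (n * r ^ (n - 1)) * Φ r) *
        ∫⁻ y in {y | h y ≤ 1}, f y :=
  hr n h hg.npos hg.meas hg.nonneg hg.smul hg.fin f hf hf1 Φ hΦ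

lemma ioi_ind (g : ℝ → ℝ≥0∞) (s : ℝ) :
    ∫⁻ r in Ioi (0 : ℝ), g r * ((Iic s).indicator (1 : ℝ → ℝ≥0∞)) r = ∫⁻ r in Ioc (0 : ℝ) s, g r := by
  have e4 : ∀ r : ℝ, g r * ((Iic s).indicator (1 : ℝ → ℝ≥0∞)) r = (Iic s).indicator g r := by
    intro r
    by_cases hr1 : r ∈ Iic s
    · simp [hr1]
    · rw [indicator_of_notMem hr1, indicator_of_notMem hr1, mul_zero]
  simp_rw [e4]
  rw [lintegral_indicator measurableSet_Iic, Measure.restrict_restrict measurableSet_Iic,
    Iic_inter_Ioi]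

/-- the law of products -/
lemma prodlaw (hr : S_rad) (hb : S_beta) (hg : Gau h) (kg : Gau k)
    (f : (Fin n → ℝ) → ℝ≥0∞) (hf : Measurable f)
    (hf1 : ∀ t : ℝ, 0 < t → ∀ y, f (t • y) = ENNReal.ofReal t * f y) (hf0 : f 0 = 0)
    (g : (Fin m → ℝ) → ℝ≥0∞) (hgm : Measurable g)
    (hg1 : ∀ t : ℝ, 0 < t → ∀ y, g (t • y) = g y) :
    ∫⁻ y2, ∫⁻ y1, (Iic (1 - k y2)).indicator (1 : ℝ → ℝ≥0∞) (h y1) * (f y1 * g y2) =
      ENNReal.ofReal (m.factorial * (n + 1).factorial / (m + (n + 1)).factorial) *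
        ((∫⁻ y in {y | h y ≤ 1}, f y) * ∫⁻ y in {y | k y ≤ 1}, g y) := by
  have e1 : ∀ y2, ∫⁻ y1, (Iic (1 - k y2)).indicator (1 : ℝ → ℝ≥0∞) (h y1) * (f y1 * g y2) =
      (∫⁻ y in {y | h y ≤ 1}, f y) *
        ((fun r => ENNReal.ofReal ((max (1 - r) 0) ^ (n + 1))) (k y2) * g y2) := by
    intro y2
    have hm : Measurable ((Iic (1 - k y2)).indicator (1 : ℝ → ℝ≥0∞)) :=
      measurable_one.indicator measurableSet_Iic
    simp_rw [← mul_assoc]
    have hmm : Measurable fun y1 => (Iic (1 - k y2)).indicator (1 : ℝ → ℝ≥0∞) (h y1) * f y1 :=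
      (hm.comp hg.meas).mul hf
    rw [lintegral_mul_const _ hmm, rad1 hr hg f hf hf1 hf0 _ hm, ioi_ind, lint_pow]
    ring
  simp_rw [e1]
  have hΨ : Measurable (fun r : ℝ => ENNReal.ofReal ((max (1 - r) 0) ^ (n + 1))) := by fun_prop
  have hmm : Measurable fun y2 => (fun r => ENNReal.ofReal ((max (1 - r) 0) ^ (n + 1))) (k y2) *
      g y2 := (hΨ.comp kg.meas).mul hgm
  rw [lintegral_const_mul _ hmm, rad0 hr kg g hgm hg1 _ hΨ]
  have e2 : ∫⁻ r in Ioi (0 : ℝ), ENNReal.ofReal (m * r ^ (m - 1)) *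
      ENNReal.ofReal ((max (1 - r) 0) ^ (n + 1)) =
      ENNReal.ofReal (m.factorial * (n + 1).factorial / (m + (n + 1)).factorial) := by
    rw [← (hb m (n + 1) kg.npos).1, ← ioi_ind]
    apply setLIntegral_congr_fun measurableSet_Ioi
    intro r hr0
    have hr0' : (0 : ℝ) < r := hr0
    simp only
    by_cases h1 : r ≤ 1
    · rw [indicator_of_mem (show r ∈ Iic (1 : ℝ) from h1), max_eq_left (by linarith),
        ← ENNReal.ofReal_mul (by positivity)]
      simp
    · rw [indicator_of_notMem (show r ∉ Iic (1 : ℝ) from h1),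
        max_eq_right (by linarith [not_le.1 h1])]
      simp
  rw [e2]
  ring

/-- the law of sums -/
lemma sumlaw (hr : S_rad) (hg : Gau h) (kg : Gau k)
    (f : (Fin n → ℝ) → ℝ≥0∞) (hf : Measurable f)
    (hf1 : ∀ t : ℝ, 0 < t → ∀ y, f (t • y) = ENNReal.ofReal t * f y) (hf0 : f 0 = 0)
    (g : (Fin m → ℝ) → ℝ≥0∞) (hgm : Measurable g) (T : ℝ → Set ℝ) (hT : ∀ x, T x = Iic x ∨
      T x = Iio x) :
    ∫⁻ y1, ∫⁻ y2, (Iic (1 : ℝ)).indicator (1 : ℝ → ℝ≥0∞) (h y1) *
        (T (h y1)).indicator (1 : ℝ → ℝ≥0∞) (k y2) * (f y1 * g ((h y1)⁻¹ • y2)) =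
      ENNReal.ofReal (((n : ℝ) + 1) / (n + m + 1)) *
        ((∫⁻ y in {y | h y ≤ 1}, f y) * ∫⁻ y in {y | k y ≤ 1}, g y) := by
  have hnull : volume {y | k y = 1} = 0 := by
    have := rad0 hr kg (fun _ => 1) measurable_const (fun _ _ _ => rfl)
      (({1} : Set ℝ).indicator 1) (measurable_one.indicator (measurableSet_singleton _))
    have e : ∫⁻ y, ({1} : Set ℝ).indicator (1 : ℝ → ℝ≥0∞) (k y) * 1 = volume {y | k y = 1} := by
      have hm : MeasurableSet {y | k y = 1} := measurableSet_eq_fun kg.meas measurable_const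
      rw [← lintegral_indicator_one hm]
      apply lintegral_congr
      intro y
      by_cases hy : k y = 1
      · simp [hy]
      · rw [indicator_of_notMem (show k y ∉ ({1} : Set ℝ) from hy),
          indicator_of_notMem (show y ∉ {y | k y = 1} from hy), zero_mul]
    rw [← e, this]
    have e0 : ∫⁻ r in Ioi (0 : ℝ), ENNReal.ofReal (m * r ^ (m - 1)) *
        ({1} : Set ℝ).indicator (1 : ℝ → ℝ≥0∞) r = 0 := by
      have : ∀ᵐ r : ℝ ∂(volume.restrict (Ioi (0 : ℝ))), r ≠ 1 := by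
        apply ae_restrict_of_ae
        exact Measure.ae_ne volume 1
      have e00 : ∫⁻ r in Ioi (0 : ℝ), ENNReal.ofReal (m * r ^ (m - 1)) *
          ({1} : Set ℝ).indicator (1 : ℝ → ℝ≥0∞) r = ∫⁻ r in Ioi (0 : ℝ), 0 := by
        apply lintegral_congr_ae
        filter_upwards [this] with r hr1
        rw [indicator_of_notMem (show r ∉ ({1} : Set ℝ) from hr1), mul_zero]
      rw [e00, lintegral_zero]
    rw [e0, zero_mul]
  have hT1 : ∀ x, MeasurableSet (T x) := fun x => by
    rcases hT x with e | e <;> rw [e]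
    exacts [measurableSet_Iic, measurableSet_Iio]
  have inner : ∀ X : ℝ, 0 < X → ∫⁻ y2, (T X).indicator (1 : ℝ → ℝ≥0∞) (k y2) * g (X⁻¹ • y2) =
      ENNReal.ofReal (X ^ m) * ∫⁻ y in {y | k y ≤ 1}, g y := by
    intro X hX
    have hm : MeasurableSet {y | k y ≤ 1} := measurableSet_le kg.meas measurable_const
    rw [← lintegral_indicator hm, ← lint_smul X hX _ (hgm.indicator hm)]
    have hsm : ∀ y, k (X⁻¹ • y) = X⁻¹ * k y := fun y => kg.smul _ (by positivity) y
    have hnull' : volume {y | k (X⁻¹ • y) = 1} = 0 := by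
      have h0 := lint_smul (m := m) X hX ({y | k y = 1}.indicator 1)
        (measurable_one.indicator (measurableSet_eq_fun kg.meas measurable_const))
      rw [lintegral_indicator_one (measurableSet_eq_fun kg.meas measurable_const), hnull,
        mul_zero] at h0
      have hm2 : MeasurableSet {y | k (X⁻¹ • y) = 1} :=
        measurableSet_eq_fun (kg.meas.comp (measurable_const_smul _)) measurable_const
      rw [← lintegral_indicator_one hm2, ← h0]
      rfl
    apply lintegral_congr_ae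
    have : ∀ᵐ y : Fin m → ℝ, k (X⁻¹ • y) ≠ 1 := by
      rw [ae_iff]; simpa using hnull'
    filter_upwards [this] with y hy
    have hiff : k y ∈ T X ↔ k (X⁻¹ • y) ≤ 1 := by
      rw [hsm] at hy ⊢
      have hne : k y ≠ X := by
        intro h; rw [h] at hy; exact hy (by field_simp)
      have h1 : X⁻¹ * k y ≤ 1 ↔ k y ≤ X := by
        rw [inv_mul_le_iff₀ hX, mul_one]
      rw [h1]
      rcases hT X with e | e <;> rw [e]
      · exact Iff.rfl
      · exact ⟨fun h => le_of_lt h, fun h => lt_of_le_of_ne h hne⟩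
    by_cases hc : k y ∈ T X
    · rw [indicator_of_mem hc, indicator_of_mem (show X⁻¹ • y ∈ {y | k y ≤ 1} from hiff.1 hc)]
      simp
    · rw [indicator_of_notMem hc, indicator_of_notMem
        (show X⁻¹ • y ∉ {y | k y ≤ 1} from fun h => hc (hiff.2 h))]
      simp
  have e1 : ∀ y1, ∫⁻ y2, (Iic (1 : ℝ)).indicator (1 : ℝ → ℝ≥0∞) (h y1) *
        (T (h y1)).indicator (1 : ℝ → ℝ≥0∞) (k y2) * (f y1 * g ((h y1)⁻¹ • y2)) =
      ((fun r => (Iic (1 : ℝ)).indicator (1 : ℝ → ℝ≥0∞) r * ENNReal.ofReal (r ^ m)) (h y1) *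
        f y1) * ∫⁻ y in {y | k y ≤ 1}, g y := by
    intro y1
    by_cases hy : y1 = 0
    · subst hy
      simp [hf0]
    · have hX := hg.pos y1 hy
      have e2 : ∀ y2, (Iic (1 : ℝ)).indicator (1 : ℝ → ℝ≥0∞) (h y1) *
        (T (h y1)).indicator (1 : ℝ → ℝ≥0∞) (k y2) * (f y1 * g ((h y1)⁻¹ • y2)) =
        ((Iic (1 : ℝ)).indicator (1 : ℝ → ℝ≥0∞) (h y1) * f y1) *
          ((T (h y1)).indicator (1 : ℝ → ℝ≥0∞) (k y2) * g ((h y1)⁻¹ • y2)) := by
        intro y2; ring
      simp_rw [e2]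
      have hmm : Measurable fun y2 => (T (h y1)).indicator (1 : ℝ → ℝ≥0∞) (k y2) *
          g ((h y1)⁻¹ • y2) := ((measurable_one.indicator (hT1 _)).comp kg.meas).mul
        (hgm.comp (measurable_const_smul _))
      rw [lintegral_const_mul _ hmm, inner _ hX]
      ring
  simp_rw [e1]
  have hΦ : Measurable fun r => (Iic (1 : ℝ)).indicator (1 : ℝ → ℝ≥0∞) r * ENNReal.ofReal (r ^ m) :=
    (measurable_one.indicator measurableSet_Iic).mul (by fun_prop)
  have hmm : Measurable fun y1 => (fun r => (Iic (1 : ℝ)).indicator (1 : ℝ → ℝ≥0∞) r *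
      ENNReal.ofReal (r ^ m)) (h y1) * f y1 := (hΦ.comp hg.meas).mul hf
  rw [lintegral_mul_const _ hmm, rad1 hr hg f hf hf1 hf0 _ hΦ, ← mul_assoc]
  congr 2
  have e3 : ∀ r : ℝ, ENNReal.ofReal (((n : ℝ) + 1) * r ^ n) *
      ((Iic (1 : ℝ)).indicator (1 : ℝ → ℝ≥0∞) r * ENNReal.ofReal (r ^ m)) =
      (ENNReal.ofReal (((n : ℝ) + 1) * r ^ n) * ENNReal.ofReal (r ^ m)) *
        (Iic (1 : ℝ)).indicator (1 : ℝ → ℝ≥0∞) r := by
    intro r; ring
  simp_rw [e3]
  rw [ioi_ind]
  have e4 : ∫⁻ r in Ioc (0 : ℝ) 1, ENNReal.ofReal (((n : ℝ) + 1) * r ^ n) * ENNReal.ofReal (r ^ m) =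
      ∫⁻ r in Ioc (0 : ℝ) 1, ENNReal.ofReal (((n : ℝ) + 1) / (n + m + 1)) *
        ENNReal.ofReal (((n + m : ℕ) + 1 : ℝ) * r ^ (n + m)) := by
    apply setLIntegral_congr_fun measurableSet_Ioc
    intro r hr0
    have hr0' : (0 : ℝ) < r := hr0.1
    simp only
    rw [← ENNReal.ofReal_mul (by positivity), ← ENNReal.ofReal_mul (by positivity)]
    congr 1
    push_cast
    have : (n : ℝ) + m + 1 ≠ 0 := by positivity
    field_simp
    ring
  rw [e4, lintegral_const_mul _ (by fun_prop), lint_pow]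
  simp

end laws

/-! ### kernels -/

section kers
variable {n m : ℕ} {U V U' V' : Type}

lemma ker_zero [Fintype U] {F : Fr n U V} {α : U → V → ℝ} {mu : (Fin n → ℝ) → U → ℝ}
    (K : Ker F α mu) (a : U) : mu 0 a = 0 := by
  have := K.smul 2 two_pos 0 a
  rw [smul_zero] at this
  linarith

lemma ker_sum [Fintype U] {F : Fr n U V} {α : U → V → ℝ} {mu : (Fin n → ℝ) → U → ℝ}
    (g : Good F) (K : Ker F α mu) (y : Fin n → ℝ) : ∑ a, mu y a = F.h y := by
  have h1 : F.v (F.vt y) ⬝ᵥ y = F.h y := g.dhalf.eq y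
  have h2 := congrArg (fun z => F.v (F.vt y) ⬝ᵥ z) (K.bary y)
  rw [h1, dotProduct_sum] at h2
  rw [← h2]
  apply Finset.sum_congr rfl
  intro a _
  rw [dotProduct_smul, smul_eq_mul]
  by_cases h0 : mu y a = 0
  · rw [h0, zero_mul]
  · rw [dotProduct_comm, K.supp y a h0, mul_one]

/-- the part of the kernel at a vertex -/
def fI (F : Fr n U V) (mu : (Fin n → ℝ) → U → ℝ) (a : U) (b : V) : (Fin n → ℝ) → ℝ≥0∞ :=
  {y | F.vt y = b}.indicator fun y => ENNReal.ofReal (mu y a)

/-- the normal cone of a vertex -/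
def gI (F : Fr n U V) (b : V) : (Fin n → ℝ) → ℝ≥0∞ := {y | F.vt y = b}.indicator 1

lemma meas_fI [Fintype U] {F : Fr n U V} {α : U → V → ℝ} {mu : (Fin n → ℝ) → U → ℝ}
    (g : Good F) (K : Ker F α mu) (a : U) (b : V) : Measurable (fI F mu a b) :=
  (ENNReal.measurable_ofReal.comp (K.meas a)).indicator (g.dhalf.meas b)

lemma meas_gI {F : Fr n U V} (g : Good F) (b : V) : Measurable (gI F b) :=
  measurable_one.indicator (g.dhalf.meas b)

lemma vt_smul {F : Fr n U V} (g : Good F) (t : ℝ) (ht : 0 < t) (y : Fin n → ℝ) :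
    F.vt (t • y) = F.vt y := g.dhalf.smul t ht y

lemma fI_smul [Fintype U] {F : Fr n U V} {α : U → V → ℝ} {mu : (Fin n → ℝ) → U → ℝ}
    (g : Good F) (K : Ker F α mu) (a : U) (b : V) (t : ℝ) (ht : 0 < t) (y : Fin n → ℝ) :
    fI F mu a b (t • y) = ENNReal.ofReal t * fI F mu a b y := by
  unfold fI
  by_cases h : F.vt y = b
  · rw [indicator_of_mem (show t • y ∈ {y | F.vt y = b} from by
      rw [mem_ofPred_eq, vt_smul g t ht]; exact h), indicator_of_mem (show y ∈ {y | F.vt y = b} from h),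
      K.smul t ht, ENNReal.ofReal_mul ht.le]
  · rw [indicator_of_notMem (show t • y ∉ {y | F.vt y = b} from by
      rw [mem_ofPred_eq, vt_smul g t ht]; exact h),
      indicator_of_notMem (show y ∉ {y | F.vt y = b} from h), mul_zero]

lemma gI_smul {F : Fr n U V} (g : Good F) (b : V) (t : ℝ) (ht : 0 < t) (y : Fin n → ℝ) :
    gI F b (t • y) = gI F b y := by
  unfold gI
  by_cases h : F.vt y = b
  · rw [indicator_of_mem (show t • y ∈ {y | F.vt y = b} from by
      rw [mem_ofPred_eq, vt_smul g t ht]; exact h), indicator_of_mem (show y ∈ {y | F.vt y = b} from h)]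
    rfl
  · rw [indicator_of_notMem (show t • y ∉ {y | F.vt y = b} from by
      rw [mem_ofPred_eq, vt_smul g t ht]; exact h),
      indicator_of_notMem (show y ∉ {y | F.vt y = b} from h)]

lemma fI_zero [Fintype U] {F : Fr n U V} {α : U → V → ℝ} {mu : (Fin n → ℝ) → U → ℝ}
    (K : Ker F α mu) (a : U) (b : V) : fI F mu a b 0 = 0 := by
  unfold fI
  by_cases h : (0 : Fin n → ℝ) ∈ {y | F.vt y = b}
  · rw [indicator_of_mem h, ker_zero K]; simp
  · rw [indicator_of_notMem h]

lemma int_fI [Fintype U] {F : Fr n U V} {α : U → V → ℝ} {mu : (Fin n → ℝ) → U → ℝ}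
    (g : Good F) (K : Ker F α mu) (a : U) (b : V) :
    ∫⁻ y in {y | F.h y ≤ 1}, fI F mu a b y =
      ENNReal.ofReal ((n : ℝ) / (n + 1) * α a b) * volume F.pol := by
  rw [← K.law a b]
  unfold fI
  have hm : MeasurableSet {y | F.vt y = b} := g.dhalf.meas b
  rw [lintegral_indicator hm, Measure.restrict_restrict hm]
  congr 2
  ext y
  simp [and_comm]

lemma int_gI [Fintype U] [Fintype V] (hr : S_rad) {F : Fr n U V} {α : U → V → ℝ}
    {mu : (Fin n → ℝ) → U → ℝ} (g : Good F) (K : Ker F α mu) (b : V) :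
    ∫⁻ y in {y | F.h y ≤ 1}, gI F b y =
      ENNReal.ofReal (∑ a, α a b) * volume F.pol := by
  have hg := gauh g
  have hΦ : Measurable fun r : ℝ => (Iic (1 : ℝ)).indicator (1 : ℝ → ℝ≥0∞) r * ENNReal.ofReal r :=
    (measurable_one.indicator measurableSet_Iic).mul (by fun_prop)
  have hrad := rad0 hr hg (gI F b) (meas_gI g b) (gI_smul g b) _ hΦ
  have e1 : ∫⁻ r in Ioi (0 : ℝ), ENNReal.ofReal (n * r ^ (n - 1)) *
      ((Iic (1 : ℝ)).indicator (1 : ℝ → ℝ≥0∞) r * ENNReal.ofReal r) =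
      ENNReal.ofReal ((n : ℝ) / (n + 1)) := by
    have e2 : ∀ r : ℝ, ENNReal.ofReal (n * r ^ (n - 1)) *
        ((Iic (1 : ℝ)).indicator (1 : ℝ → ℝ≥0∞) r * ENNReal.ofReal r) =
        (ENNReal.ofReal (n * r ^ (n - 1)) * ENNReal.ofReal r) *
        (Iic (1 : ℝ)).indicator (1 : ℝ → ℝ≥0∞) r := fun r => by ring
    simp_rw [e2]
    rw [ioi_ind]
    have e3 : ∫⁻ r in Ioc (0 : ℝ) 1, ENNReal.ofReal (n * r ^ (n - 1)) * ENNReal.ofReal r =
        ∫⁻ r in Ioc (0 : ℝ) 1, ENNReal.ofReal ((n : ℝ) / (n + 1)) *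
          ENNReal.ofReal (((n : ℝ) + 1) * r ^ n) := by
      apply setLIntegral_congr_fun measurableSet_Ioc
      intro r hr0
      have hr0' : (0 : ℝ) < r := hr0.1
      simp only
      rw [← ENNReal.ofReal_mul (by positivity), ← ENNReal.ofReal_mul (by positivity)]
      congr 1
      obtain ⟨j, rfl⟩ : ∃ j, n = j + 1 := ⟨n - 1, by have := hg.npos; omega⟩
      have : ((j + 1 : ℕ) : ℝ) + 1 ≠ 0 := by positivity
      simp only [Nat.add_sub_cancel]
      field_simp
      ring
    rw [e3, lintegral_const_mul _ (by fun_prop), lint_pow]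
    simp
  have e2 : ∫⁻ y, (Iic (1 : ℝ)).indicator (1 : ℝ → ℝ≥0∞) (F.h y) * ENNReal.ofReal (F.h y) *
      gI F b y = ∑ a, ∫⁻ y in {y | F.h y ≤ 1}, fI F mu a b y := by
    have hm : MeasurableSet {y | F.h y ≤ 1} := measurableSet_le hg.meas measurable_const
    rw [← lintegral_finsetSum _ fun a _ => meas_fI g K a b, ← lintegral_indicator hm]
    apply lintegral_congr
    intro y
    by_cases hy : F.h y ≤ 1
    · rw [indicator_of_mem (show F.h y ∈ Iic (1 : ℝ) from hy),
        indicator_of_mem (show y ∈ {y | F.h y ≤ 1} from hy)]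
      unfold gI fI
      by_cases hv : F.vt y = b
      · simp only [indicator_of_mem (show y ∈ {y | F.vt y = b} from hv)]
        rw [← ENNReal.ofReal_sum_of_nonneg fun a _ => K.nonneg y a, ker_sum g K]
        simp
      · simp only [indicator_of_notMem (show y ∉ {y | F.vt y = b} from hv)]
        simp
    · rw [indicator_of_notMem (show F.h y ∉ Iic (1 : ℝ) from hy),
        indicator_of_notMem (show y ∉ {y | F.h y ≤ 1} from hy)]
      simp
  have e3 : ∑ a, ∫⁻ y in {y | F.h y ≤ 1}, fI F mu a b y =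
      ENNReal.ofReal ((n : ℝ) / (n + 1)) * (ENNReal.ofReal (∑ a, α a b) * volume F.pol) := by
    simp_rw [int_fI g K]
    rw [← Finset.sum_mul, ← mul_assoc]
    congr 1
    rw [← ENNReal.ofReal_sum_of_nonneg fun a _ => mul_nonneg (by positivity) (K.alpha a b),
      ← ENNReal.ofReal_mul (by positivity), Finset.mul_sum]
  rw [e1, e2, e3] at hrad
  have hn : (0 : ℝ) < (n : ℝ) / (n + 1) := by
    have : (0 : ℝ) < n := by exact_mod_cast g.n_pos
    positivity
  exact (ENNReal.mul_right_inj (by simpa using hn) ENNReal.ofReal_ne_top).1 hrad.symm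

lemma measurable_append : Measurable fun p : (Fin n → ℝ) × (Fin m → ℝ) => Fin.append p.1 p.2 := by
  apply measurable_pi_lambda
  intro i
  refine Fin.addCases (fun j => ?_) (fun j => ?_) i
  · simp only [Fin.append_left]
    exact (measurable_pi_apply j).comp measurable_fst
  · simp only [Fin.append_right]
    exact (measurable_pi_apply j).comp measurable_snd

lemma app_swap (h1 : S_app) (f : (Fin (n + m) → ℝ) → ℝ≥0∞) (hf : Measurable f) :
    ∫⁻ x, f x = ∫⁻ x2 : Fin m → ℝ, ∫⁻ x1 : Fin n → ℝ, f (Fin.append x1 x2) := by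
  rw [h1 n m f hf]
  exact lintegral_lintegral_swap (hf.comp measurable_append).aemeasurable

lemma cst1 {A B C D E v w : ℝ≥0∞} (h : A * B * C = D * E) :
    A * ((B * v) * (C * w)) = D * (E * (v * w)) := by
  rw [show A * ((B * v) * (C * w)) = (A * B * C) * (v * w) by ring, h, mul_assoc]

theorem kprod (h1 : S_app) (h2 : S_rad) (h3 : S_beta) (h4 : S_gprod) : S_kprod := by
  intro n m U V U' V' _ _ _ _ F G α α' mu mu' hF hG kF kG
  obtain ⟨gP, -, hvol⟩ := h4 n m U V U' V' F G hF hG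
  have hn : (0 : ℝ) < n := by exact_mod_cast hF.n_pos
  have hm : (0 : ℝ) < m := by exact_mod_cast hG.n_pos
  have hsumF : ∀ b, 0 ≤ ∑ a, α a b := fun b => Finset.sum_nonneg fun a _ => kF.alpha a b
  have hsumG : ∀ b, 0 ≤ ∑ a, α' a b := fun b => Finset.sum_nonneg fun a _ => kG.alpha a b
  have hmeas : ∀ a, Measurable fun y => muP mu mu' y a := by
    rintro (a | a')
    · exact (kF.meas a).comp measurable_p1
    · exact (kG.meas a').comp measurable_p2
  refine ⟨?_, hmeas, ?_, ?_, ?_, ?_, ?_⟩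
  · rintro y (a | a')
    · exact kF.nonneg _ _
    · exact kG.nonneg _ _
  · rintro t ht y (a | a')
    · show mu (p1 (t • y)) a = t * mu (p1 y) a
      rw [p1_smul, kF.smul t ht]
    · show mu' (p2 (t • y)) a' = t * mu' (p2 y) a'
      rw [p2_smul, kG.smul t ht]
  · intro y
    rw [Fintype.sum_sum_type]
    show ∑ a, mu (p1 y) a • Fin.append (F.u a) 0 + ∑ a', mu' (p2 y) a' • Fin.append 0 (G.u a') = y
    simp_rw [smul_append, smul_zero]
    rw [append_sum, append_sum, append_add, kF.bary, kG.bary]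
    simp [append_p]
  · rintro y (a | a') hne
    · show Fin.append (F.u a) 0 ⬝ᵥ Fin.append (F.v (F.vt (p1 y))) (G.v (G.vt (p2 y))) = 1
      rw [append_dot, kF.supp _ _ hne, zero_dotProduct, add_zero]
    · show Fin.append 0 (G.u a') ⬝ᵥ Fin.append (F.v (F.vt (p1 y))) (G.v (G.vt (p2 y))) = 1
      rw [append_dot, kG.supp _ _ hne, zero_dotProduct, zero_add]
  · rintro (a | a') ⟨b, b'⟩
    · show 0 ≤ (n : ℝ) / (n + m) * α a b * ∑ a', α' a' b'
      exact mul_nonneg (mul_nonneg (by positivity) (kF.alpha _ _)) (hsumG _)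
    · show 0 ≤ (m : ℝ) / (n + m) * α' a' b' * ∑ a, α a b
      exact mul_nonneg (mul_nonneg (by positivity) (kG.alpha _ _)) (hsumF _)
  · have hmS : ∀ b : V × V', MeasurableSet {y | (F.prod G).h y ≤ 1 ∧ (F.prod G).vt y = b} :=
      fun b => (measurableSet_le (gauh gP).meas measurable_const).inter (gP.dhalf.meas b)
    rintro (a | a') ⟨b, b'⟩
    · have hmI : Measurable ({y | (F.prod G).h y ≤ 1 ∧ (F.prod G).vt y = (b, b')}.indicator
          (fun y => ENNReal.ofReal (muP mu mu' y (Sum.inl a)))) :=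
        (ENNReal.measurable_ofReal.comp (hmeas _)).indicator (hmS _)
      rw [← lintegral_indicator (hmS _), app_swap h1 _ hmI]
      have e : ∀ (x2 : Fin m → ℝ) (x1 : Fin n → ℝ),
          {y | (F.prod G).h y ≤ 1 ∧ (F.prod G).vt y = (b, b')}.indicator
            (fun y => ENNReal.ofReal (muP mu mu' y (Sum.inl a))) (Fin.append x1 x2) =
          (Iic (1 - G.h x2)).indicator (1 : ℝ → ℝ≥0∞) (F.h x1) *
            (fI F mu a b x1 * gI G b' x2) := by
        intro x2 x1
        have hiff : Fin.append x1 x2 ∈ {y | (F.prod G).h y ≤ 1 ∧ (F.prod G).vt y = (b, b')} ↔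
            F.h x1 ∈ Iic (1 - G.h x2) ∧ x1 ∈ {y | F.vt y = b} ∧ x2 ∈ {y | G.vt y = b'} := by
          show F.h (p1 (Fin.append x1 x2)) + G.h (p2 (Fin.append x1 x2)) ≤ 1 ∧
            (F.vt (p1 (Fin.append x1 x2)), G.vt (p2 (Fin.append x1 x2))) = (b, b') ↔
            F.h x1 ≤ 1 - G.h x2 ∧ F.vt x1 = b ∧ G.vt x2 = b'
          rw [p1_append, p2_append, Prod.mk.injEq, le_sub_iff_add_le]
        have hval : muP mu mu' (Fin.append x1 x2) (Sum.inl a) = mu x1 a := by
          show mu (p1 (Fin.append x1 x2)) a = mu x1 a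
          rw [p1_append]
        unfold fI gI
        by_cases c1 : F.h x1 ∈ Iic (1 - G.h x2)
        · by_cases c2 : x1 ∈ {y | F.vt y = b}
          · by_cases c3 : x2 ∈ {y | G.vt y = b'}
            · rw [indicator_of_mem (hiff.2 ⟨c1, c2, c3⟩), indicator_of_mem c1,
                indicator_of_mem c2, indicator_of_mem c3, hval]
              simp
            · rw [indicator_of_notMem (fun h => c3 (hiff.1 h).2.2), indicator_of_notMem c3]
              simp
          · rw [indicator_of_notMem (fun h => c2 (hiff.1 h).2.1), indicator_of_notMem c2]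
            simp
        · rw [indicator_of_notMem (fun h => c1 (hiff.1 h).1), indicator_of_notMem c1]
          simp
      simp_rw [e]
      rw [prodlaw h2 h3 (gauh hF) (gauh hG) _ (meas_fI hF kF a b) (fI_smul hF kF a b)
        (fI_zero kF a b) _ (meas_gI hG b') (gI_smul hG b'), int_fI hF kF, int_gI h2 hG kG, hvol]
      show _ = ENNReal.ofReal (((n + m : ℕ) : ℝ) / ((n + m : ℕ) + 1) *
        ((n : ℝ) / (n + m) * α a b * ∑ a', α' a' b')) * _
      have hx := kF.alpha a b
      have hy := hsumG b'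
      apply cst1
      rw [← ENNReal.ofReal_mul (by positivity), ← ENNReal.ofReal_mul (by positivity),
        ← ENNReal.ofReal_mul (by positivity)]
      congr 1
      have f1 : ((n + 1).factorial : ℝ) = (n + 1) * n.factorial := by
        rw [Nat.factorial_succ]; push_cast; ring
      have f2 : ((m + (n + 1)).factorial : ℝ) = (n + m + 1) * (n + m).factorial := by
        rw [show m + (n + 1) = (n + m) + 1 by omega, Nat.factorial_succ]; push_cast; ring
      have f3 : ((n + m).factorial : ℝ) ≠ 0 := by positivity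
      have f4 : (n : ℝ) + m + 1 ≠ 0 := by positivity
      have f5 : (n : ℝ) + m ≠ 0 := by positivity
      rw [f1, f2]
      push_cast
      field_simp
    · have hmI : Measurable ({y | (F.prod G).h y ≤ 1 ∧ (F.prod G).vt y = (b, b')}.indicator
          (fun y => ENNReal.ofReal (muP mu mu' y (Sum.inr a')))) :=
        (ENNReal.measurable_ofReal.comp (hmeas _)).indicator (hmS _)
      rw [← lintegral_indicator (hmS _), h1 n m _ hmI]
      have e : ∀ (x1 : Fin n → ℝ) (x2 : Fin m → ℝ),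
          {y | (F.prod G).h y ≤ 1 ∧ (F.prod G).vt y = (b, b')}.indicator
            (fun y => ENNReal.ofReal (muP mu mu' y (Sum.inr a'))) (Fin.append x1 x2) =
          (Iic (1 - F.h x1)).indicator (1 : ℝ → ℝ≥0∞) (G.h x2) *
            (fI G mu' a' b' x2 * gI F b x1) := by
        intro x1 x2
        have hiff : Fin.append x1 x2 ∈ {y | (F.prod G).h y ≤ 1 ∧ (F.prod G).vt y = (b, b')} ↔
            G.h x2 ∈ Iic (1 - F.h x1) ∧ x1 ∈ {y | F.vt y = b} ∧ x2 ∈ {y | G.vt y = b'} := by
          show F.h (p1 (Fin.append x1 x2)) + G.h (p2 (Fin.append x1 x2)) ≤ 1 ∧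
            (F.vt (p1 (Fin.append x1 x2)), G.vt (p2 (Fin.append x1 x2))) = (b, b') ↔
            G.h x2 ≤ 1 - F.h x1 ∧ F.vt x1 = b ∧ G.vt x2 = b'
          rw [p1_append, p2_append, Prod.mk.injEq, le_sub_iff_add_le, add_comm]
        have hval : muP mu mu' (Fin.append x1 x2) (Sum.inr a') = mu' x2 a' := by
          show mu' (p2 (Fin.append x1 x2)) a' = mu' x2 a'
          rw [p2_append]
        unfold fI gI
        by_cases c1 : G.h x2 ∈ Iic (1 - F.h x1)
        · by_cases c2 : x1 ∈ {y | F.vt y = b}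
          · by_cases c3 : x2 ∈ {y | G.vt y = b'}
            · rw [indicator_of_mem (hiff.2 ⟨c1, c2, c3⟩), indicator_of_mem c1,
                indicator_of_mem c2, indicator_of_mem c3, hval]
              simp
            · rw [indicator_of_notMem (fun h => c3 (hiff.1 h).2.2), indicator_of_notMem c3]
              simp
          · rw [indicator_of_notMem (fun h => c2 (hiff.1 h).2.1), indicator_of_notMem c2]
            simp
        · rw [indicator_of_notMem (fun h => c1 (hiff.1 h).1), indicator_of_notMem c1]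
          simp
      simp_rw [e]
      rw [prodlaw h2 h3 (gauh hG) (gauh hF) _ (meas_fI hG kG a' b') (fI_smul hG kG a' b')
        (fI_zero kG a' b') _ (meas_gI hF b) (gI_smul hF b), int_fI hG kG, int_gI h2 hF kF, hvol]
      show _ = ENNReal.ofReal (((n + m : ℕ) : ℝ) / ((n + m : ℕ) + 1) *
        ((m : ℝ) / (n + m) * α' a' b' * ∑ a, α a b)) * _
      have hx := kG.alpha a' b'
      have hy := hsumF b
      rw [mul_comm (volume F.pol)]
      apply cst1
      rw [← ENNReal.ofReal_mul (by positivity), ← ENNReal.ofReal_mul (by positivity),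
        ← ENNReal.ofReal_mul (by positivity)]
      congr 1
      have f1 : ((m + 1).factorial : ℝ) = (m + 1) * m.factorial := by
        rw [Nat.factorial_succ]; push_cast; ring
      have f2 : ((n + (m + 1)).factorial : ℝ) = (n + m + 1) * (n + m).factorial := by
        rw [show n + (m + 1) = (n + m) + 1 by omega, Nat.factorial_succ]; push_cast; ring
      have f3 : ((n + m).factorial : ℝ) ≠ 0 := by positivity
      have f4 : (n : ℝ) + m + 1 ≠ 0 := by positivity
      have f5 : (n : ℝ) + m ≠ 0 := by positivity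
      rw [f1, f2]
      push_cast
      field_simp

end kers

end Pool.Agent.TH158.LP931
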